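import Pool.Agent.X127.MLS.Pois

set_option autoImplicit false

open Finset

namespace Pool.Agent.X127.MLS

/-- Birth-and-death matrix on `{0, …, K}`. -/
noncomputable def bdP (K : ℕ) (up dn : ℕ → ℝ) : Matrix (Fin (K + 1)) (Fin (K + 1)) ℝ :=
  fun x y => (if (y : ℕ) = x + 1 then up x else 0) + (if (y : ℕ) + 1 = x then dn x else 0) +
    (if (y : ℕ) = x then 1 - up x - dn x else 0)

theorem bd_sum (K : ℕ) (up dn : ℕ → ℝ) (hup : up K = 0) (hdn : dn 0 = 0) (f : ℕ → ℝ)
    (x : Fin (K + 1)) :
    ∑ y : Fin (K + 1), bdP K up dn x y * f y =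
      up x * f (x + 1) + dn x * f (x - 1) + (1 - up x - dn x) * f x := by
  unfold bdP
  rw [Fin.sum_univ_eq_sum_range (fun j : ℕ => ((if j = (x : ℕ) + 1 then up x else 0) +
    (if j + 1 = (x : ℕ) then dn x else 0) + (if j = (x : ℕ) then 1 - up x - dn x else 0)) * f j)]
  simp_rw [add_mul, sum_add_distrib, ite_mul, zero_mul]
  have hx : (x : ℕ) < K + 1 := x.2
  congr 1
  · congr 1
    · rw [sum_ite_eq' (range (K + 1)) ((x : ℕ) + 1) (fun j => up x * f j)]
      split_ifs with h
      · rfl
      · have : (x : ℕ) = K := by simp at h; omega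
        rw [this, hup]; ring
    · rcases Nat.eq_zero_or_pos (x : ℕ) with h0 | h0
      · rw [h0, hdn]
        rw [sum_eq_zero]
        · ring
        · intro j _; simp
      · have : ∀ j ∈ range (K + 1), (if j + 1 = (x : ℕ) then dn x * f j else 0) =
            (if j = (x : ℕ) - 1 then dn x * f j else 0) := by
          intro j _
          have : j + 1 = (x : ℕ) ↔ j = (x : ℕ) - 1 := by omega
          simp only [this]
        rw [sum_congr rfl this, sum_ite_eq' (range (K + 1)) ((x : ℕ) - 1) (fun j => dn x * f j)]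
        rw [if_pos (mem_range.2 (by omega))]
  · rw [sum_ite_eq' (range (K + 1)) (x : ℕ) (fun j => (1 - up x - dn x) * f j)]
    rw [if_pos (mem_range.2 (by omega))]

/-- Data of a birth-and-death chain on `{0, …, K}`. -/
structure BD (K : ℕ) where
  up : ℕ → ℝ
  dn : ℕ → ℝ
  pi : ℕ → ℝ
  up_nonneg : ∀ i, 0 ≤ up i
  dn_nonneg : ∀ i, 0 ≤ dn i
  sum_le : ∀ i, up i + dn i ≤ 1
  up_pos : ∀ i < K, 0 < up i
  dn_pos : ∀ i < K, 0 < dn (i + 1)
  up_last : up K = 0
  dn_zero : dn 0 = 0
  pi_pos : ∀ i ≤ K, 0 < pi i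
  pi_sum : ∑ i ∈ range (K + 1), pi i = 1
  bal : ∀ i < K, pi i * up i = pi (i + 1) * dn (i + 1)

namespace BD

variable {K : ℕ} (B : BD K)

theorem P_nonneg (x y : Fin (K + 1)) : 0 ≤ bdP K B.up B.dn x y := by
  unfold bdP
  have h1 := B.up_nonneg x
  have h2 := B.dn_nonneg x
  have h3 := B.sum_le x
  have : 0 ≤ 1 - B.up x - B.dn x := by linarith
  split_ifs <;> positivity

theorem P_row (x : Fin (K + 1)) : ∑ y, bdP K B.up B.dn x y = 1 := by
  have := bd_sum K B.up B.dn B.up_last B.dn_zero (fun _ => 1) x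
  simp only [mul_one] at this
  rw [this]; ring

theorem pow_nonneg (n : ℕ) (x y : Fin (K + 1)) : 0 ≤ (bdP K B.up B.dn ^ n) x y := by
  induction n generalizing x y with
  | zero => rw [pow_zero, Matrix.one_apply]; split_ifs <;> norm_num
  | succ n ih =>
    rw [pow_succ, Matrix.mul_apply]
    exact sum_nonneg (fun z _ => mul_nonneg (ih x z) (B.P_nonneg z y))

theorem pow_pos_step {n : ℕ} {x y z : Fin (K + 1)} (h1 : 0 < (bdP K B.up B.dn ^ n) x y)
    (h2 : 0 < bdP K B.up B.dn y z) : 0 < (bdP K B.up B.dn ^ (n + 1)) x z := by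
  rw [pow_succ, Matrix.mul_apply]
  refine lt_of_lt_of_le (mul_pos h1 h2) ?_
  exact single_le_sum (f := fun w => (bdP K B.up B.dn ^ n) x w * bdP K B.up B.dn w z)
    (fun w _ => mul_nonneg (B.pow_nonneg n x w) (B.P_nonneg w z)) (mem_univ y)

theorem P_up_pos {i : ℕ} (hi : i < K) :
    0 < bdP K B.up B.dn ⟨i, by omega⟩ ⟨i + 1, by omega⟩ := by
  unfold bdP
  have := B.up_pos i hi
  simp only
  rw [if_pos trivial, if_neg (by omega), if_neg (by omega)]
  linarith

theorem P_dn_pos {i : ℕ} (hi : i < K) :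
    0 < bdP K B.up B.dn ⟨i + 1, by omega⟩ ⟨i, by omega⟩ := by
  unfold bdP
  have := B.dn_pos i hi
  simp only
  rw [if_neg (by omega), if_pos trivial, if_neg (by omega)]
  linarith

theorem reach_up (i : ℕ) (d : ℕ) (h : i + d < K + 1) :
    0 < (bdP K B.up B.dn ^ d) ⟨i, by omega⟩ ⟨i + d, h⟩ := by
  induction d with
  | zero => simp
  | succ d ih =>
    exact B.pow_pos_step (ih (by omega)) (B.P_up_pos (i := i + d) (by omega))

theorem reach_dn (i : ℕ) (d : ℕ) (h : i + d < K + 1) :
    0 < (bdP K B.up B.dn ^ d) ⟨i + d, h⟩ ⟨i, by omega⟩ := by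
  induction d generalizing i with
  | zero => simp
  | succ d ih =>
    have h1 := ih (i + 1) (by omega)
    have h2 := B.P_dn_pos (i := i) (by omega)
    have h3 := B.pow_pos_step h1 h2
    have e : (⟨i + 1 + d, by omega⟩ : Fin (K + 1)) = ⟨i + (d + 1), h⟩ := by
      apply Fin.ext; simp; omega
    rw [e] at h3
    exact h3

/-- The chain of the data. -/
noncomputable def toRev : RevChain (Fin (K + 1)) where
  P := bdP K B.up B.dn
  π := fun x => B.pi x
  nonneg := B.P_nonneg
  row_sum := B.P_row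
  irreducible := by
    intro x y
    rcases le_total (x : ℕ) y with h | h
    · refine ⟨(y : ℕ) - x, ?_⟩
      have h1 := B.reach_up x ((y : ℕ) - x) (by omega)
      have e : (⟨(x : ℕ) + ((y : ℕ) - x), by omega⟩ : Fin (K + 1)) = y := by
        apply Fin.ext; simp; omega
      rw [e] at h1
      exact h1
    · refine ⟨(x : ℕ) - y, ?_⟩
      have h1 := B.reach_dn y ((x : ℕ) - y) (by omega)
      have e : (⟨(y : ℕ) + ((x : ℕ) - y), by omega⟩ : Fin (K + 1)) = x := by
        apply Fin.ext; simp; omega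
      rw [e] at h1
      exact h1
  pi_pos := fun x => B.pi_pos x (by omega)
  pi_sum := by
    rw [Fin.sum_univ_eq_sum_range (fun j : ℕ => B.pi j)]; exact B.pi_sum
  reversible := by
    intro x y
    unfold bdP
    rcases lt_trichotomy (x : ℕ) y with h | h | h
    · by_cases h1 : (y : ℕ) = x + 1
      · have hb := B.bal x (by omega)
        rw [← h1] at hb
        rw [if_pos h1, if_neg (by omega), if_neg (by omega), if_neg (by omega),
          if_pos (by omega), if_neg (by omega)]
        linarith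
      · rw [if_neg h1, if_neg (by omega), if_neg (by omega), if_neg (by omega),
          if_neg (by omega), if_neg (by omega)]
        ring
    · have : x = y := Fin.ext h
      subst this; rfl
    · by_cases h1 : (x : ℕ) = y + 1
      · have hb := B.bal y (by omega)
        rw [← h1] at hb
        rw [if_neg (by omega), if_pos (by omega), if_neg (by omega), if_pos h1,
          if_neg (by omega), if_neg (by omega)]
        linarith
      · rw [if_neg (by omega), if_neg (by omega), if_neg (by omega), if_neg (by omega),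
          if_neg (by omega), if_neg (by omega)]
        ring

theorem toRev_P_sum (f : ℕ → ℝ) (x : Fin (K + 1)) :
    ∑ y, B.toRev.P x y * f y =
      B.up x * f (x + 1) + B.dn x * f (x - 1) + (1 - B.up x - B.dn x) * f x :=
  bd_sum K B.up B.dn B.up_last B.dn_zero f x

/-- The Dirichlet form of a birth-and-death chain as a sum over edges. -/
theorem dir_eq (f g : ℕ → ℝ) :
    B.toRev.dir (fun x => f x) (fun x => g x) =
      ∑ i ∈ range K, B.pi i * B.up i * ((f (i + 1) - f i) * (g (i + 1) - g i)) := by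
  unfold RevChain.dir
  have h1 : ∀ x : Fin (K + 1), B.toRev.π x * ((f x - ∑ y, B.toRev.P x y * f y) * g x) =
      B.pi x * (B.up x * (f x - f (x + 1)) + B.dn x * (f x - f (x - 1))) * g x := by
    intro x
    rw [B.toRev_P_sum]
    change B.pi x * _ = _
    ring
  rw [sum_congr rfl (fun x _ => h1 x)]
  rw [Fin.sum_univ_eq_sum_range (fun i : ℕ =>
    B.pi i * (B.up i * (f i - f (i + 1)) + B.dn i * (f i - f (i - 1))) * g i)]
  have h2 : ∑ i ∈ range (K + 1),
      B.pi i * (B.up i * (f i - f (i + 1)) + B.dn i * (f i - f (i - 1))) * g i =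
      ∑ i ∈ range (K + 1), B.pi i * B.up i * (f i - f (i + 1)) * g i +
      ∑ i ∈ range (K + 1), B.pi i * B.dn i * (f i - f (i - 1)) * g i := by
    rw [← sum_add_distrib]
    exact sum_congr rfl (fun i _ => by ring)
  rw [h2, sum_range_succ, B.up_last, sum_range_succ', B.dn_zero]
  simp only [mul_zero, zero_mul, add_zero, Nat.add_sub_cancel]
  rw [← sum_add_distrib]
  refine sum_congr rfl (fun i hi => ?_)
  rw [← B.bal i (mem_range.1 hi)]
  ring

end BD

end Pool.Agent.X127.MLS
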