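import Pool.Agent.X127.MLS.BD

set_option autoImplicit false

open Finset

namespace Pool.Agent.X127.MLS

/-- Edge scale. -/
noncomputable def wt (m : ℕ) : ℝ := 1 / (2 ^ (m + 1) * (2 * ((m : ℝ) + 1)))

/-- Mass of the state `0`. -/
noncomputable def pi0 (m : ℕ) : ℝ := 1 - 3 / 2 * wt m * (1 - 1 / 2 ^ m) - 1 / 4 ^ (m + 1)

noncomputable def piN (m : ℕ) (i : ℕ) : ℝ :=
  if i = 0 then pi0 m else if i < m + 1 then 3 / 2 * wt m / 2 ^ i else 1 / 4 ^ (m + 1)

noncomputable def upN (m : ℕ) (i : ℕ) : ℝ :=
  if i = 0 then wt m / 2 / pi0 m else if i < m + 1 then 1 / 3 else 0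

noncomputable def dnN (m : ℕ) (i : ℕ) : ℝ :=
  if i = 0 then 0 else if i < m + 1 then 2 / 3 else 1 / (2 * ((m : ℝ) + 1))

theorem wt_pos (m : ℕ) : 0 < wt m := by unfold wt; positivity

theorem two_pow_ge (m : ℕ) (hm : 12 ≤ m) : (8192 : ℝ) ≤ 2 ^ (m + 1) := by
  have : (2 : ℝ) ^ 13 ≤ 2 ^ (m + 1) := pow_le_pow_right₀ (by norm_num) (by omega)
  norm_num at this ⊢
  linarith

theorem wt_le (m : ℕ) (hm : 12 ≤ m) : wt m ≤ 1 / 100 := by
  unfold wt
  have h := two_pow_ge m hm
  have h2 : (1 : ℝ) ≤ 2 * ((m : ℝ) + 1) := by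
    have : (0 : ℝ) ≤ m := Nat.cast_nonneg m
    linarith
  rw [div_le_div_iff₀ (by positivity) (by norm_num)]
  nlinarith

theorem four_pow (m : ℕ) : (4 : ℝ) ^ m = 2 ^ m * 2 ^ m := by
  rw [← mul_pow]; norm_num

theorem pi0_ge (m : ℕ) (hm : 12 ≤ m) : 9 / 10 ≤ pi0 m := by
  unfold pi0
  have h1 := wt_le m hm
  have h0 := wt_pos m
  have h2 : (1 : ℝ) / 4 ^ (m + 1) ≤ 1 / 100 := by
    apply one_div_le_one_div_of_le (by norm_num)
    rw [four_pow]
    nlinarith [two_pow_ge m hm]
  have h3 : (0 : ℝ) < 1 / 2 ^ m := by positivity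
  have h4 : wt m * (1 - 1 / 2 ^ m) ≤ wt m * 1 := mul_le_mul_of_nonneg_left (by linarith) h0.le
  nlinarith

theorem pi0_le (m : ℕ) : pi0 m ≤ 1 := by
  unfold pi0
  have h0 := wt_pos m
  have h3 : (1 : ℝ) / 2 ^ m ≤ 1 := by
    rw [div_le_one (by positivity)]
    exact one_le_pow₀ (by norm_num)
  have h4 : (0 : ℝ) < 1 / 4 ^ (m + 1) := by positivity
  have : 0 ≤ 3 / 2 * wt m * (1 - 1 / 2 ^ m) := by
    apply mul_nonneg (by positivity); linarith
  linarith

theorem sum_half (m : ℕ) : ∑ i ∈ range m, (1 : ℝ) / 2 ^ (i + 1) = 1 - 1 / 2 ^ m := by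
  induction m with
  | zero => simp
  | succ m ih =>
    rw [sum_range_succ, ih, pow_succ]
    field_simp
    ring

/-- The counterexample chain. -/
noncomputable def slow (m : ℕ) (hm : 12 ≤ m) : BD (m + 1) where
  up := upN m
  dn := dnN m
  pi := piN m
  up_nonneg := by
    intro i
    unfold upN
    have := pi0_ge m hm
    have h2 := wt_pos m
    split_ifs <;> positivity
  dn_nonneg := by
    intro i
    unfold dnN
    split_ifs <;> positivity
  sum_le := by
    intro i
    unfold upN dnN
    have h1 := pi0_ge m hm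
    have h2 := wt_pos m
    have h3 := wt_le m hm
    split_ifs
    · rw [add_zero, div_le_one (by linarith)]
      linarith
    · norm_num
    · rw [zero_add, div_le_one (by positivity)]
      have : (0 : ℝ) ≤ m := Nat.cast_nonneg m
      linarith
  up_pos := by
    intro i hi
    unfold upN
    have := pi0_ge m hm
    have h2 := wt_pos m
    split_ifs <;> positivity
  dn_pos := by
    intro i hi
    unfold dnN
    rw [if_neg (by omega)]
    split_ifs <;> positivity
  up_last := by unfold upN; simp
  dn_zero := by unfold dnN; simp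
  pi_pos := by
    intro i hi
    unfold piN
    have := pi0_ge m hm
    have h2 := wt_pos m
    split_ifs <;> positivity
  pi_sum := by
    rw [sum_range_succ', sum_range_succ]
    have h1 : ∑ i ∈ range m, piN m (i + 1) = ∑ i ∈ range m, 3 / 2 * wt m * (1 / 2 ^ (i + 1)) := by
      refine sum_congr rfl (fun i hi => ?_)
      have := mem_range.1 hi
      unfold piN
      rw [if_neg (by omega), if_pos (by omega)]
      ring
    rw [h1, ← mul_sum, sum_half]
    unfold piN
    rw [if_neg (by omega), if_neg (by omega), if_pos rfl]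
    unfold pi0
    ring
  bal := by
    intro i hi
    have h0 := pi0_ge m hm
    have hm0 : (0 : ℝ) < 2 * ((m : ℝ) + 1) := by positivity
    rcases Nat.eq_zero_or_pos i with h | h
    · subst h
      unfold piN upN dnN
      rw [if_pos rfl, if_pos rfl, if_neg (by omega), if_pos (by omega), if_neg (by omega),
        if_pos (by omega)]
      have : pi0 m ≠ 0 := by linarith
      field_simp
      norm_num
    · rcases Nat.lt_or_ge (i + 1) (m + 1) with h1 | h1
      · unfold piN upN dnN
        rw [if_neg (by omega), if_pos (by omega), if_neg (by omega), if_pos (by omega),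
          if_neg (by omega), if_pos (by omega), if_neg (by omega), if_pos (by omega)]
        rw [pow_succ]
        field_simp
      · have : i = m := by omega
        subst this
        unfold piN upN dnN wt
        rw [if_neg (by omega), if_pos (by omega), if_neg (by omega), if_pos (by omega),
          if_neg (by omega), if_neg (by omega), if_neg (by omega), if_neg (by omega)]
        rw [four_pow]
        rw [pow_succ]
        field_simp

/-- Edge weights. -/
theorem slow_edge (m : ℕ) (hm : 12 ≤ m) (i : ℕ) (hi : i < m + 1) :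
    (slow m hm).pi i * (slow m hm).up i = wt m / 2 ^ (i + 1) := by
  change piN m i * upN m i = _
  have h0 := pi0_ge m hm
  rcases Nat.eq_zero_or_pos i with h | h
  · subst h
    unfold piN upN
    rw [if_pos rfl, if_pos rfl]
    have : pi0 m ≠ 0 := by linarith
    field_simp
    norm_num
  · unfold piN upN
    rw [if_neg (by omega), if_pos (by omega), if_neg (by omega), if_pos (by omega), pow_succ]
    field_simp

end Pool.Agent.X127.MLS
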