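import Mathlib

set_option autoImplicit false

open Finset

namespace Pool.Agent.X127.MLS

/-- A finite irreducible reversible Markov chain on `Ω`: transition matrix `P` and
reversible distribution `π`. -/
structure RevChain (Ω : Type) [Fintype Ω] [DecidableEq Ω] where
  P : Matrix Ω Ω ℝ
  π : Ω → ℝ
  nonneg : ∀ x y, 0 ≤ P x y
  row_sum : ∀ x, ∑ y, P x y = 1
  irreducible : ∀ x y, ∃ n : ℕ, 0 < (P ^ n) x y
  pi_pos : ∀ x, 0 < π x
  pi_sum : ∑ x, π x = 1
  reversible : ∀ x y, π x * P x y = π y * P y x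

namespace RevChain

variable {Ω : Type} [Fintype Ω] [DecidableEq Ω] (M : RevChain Ω)

/-- The Dirichlet form `⟨(I - P) f, g⟩_π`. -/
noncomputable def dir (f g : Ω → ℝ) : ℝ :=
  ∑ x, M.π x * ((f x - ∑ y, M.P x y * f y) * g x)

/-- `Ent_π(f) = E_π[f log f] - E_π[f] log E_π[f]`. -/
noncomputable def ent (f : Ω → ℝ) : ℝ :=
  ∑ x, M.π x * (f x * Real.log (f x)) -
    (∑ x, M.π x * f x) * Real.log (∑ x, M.π x * f x)

/-- The modified log-Sobolev constant: infimum of `E(e^f, f) / Ent_π(e^f)` over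
non-constant `f`. -/
noncomputable def cMLS : ℝ :=
  sInf {r : ℝ | ∃ f : Ω → ℝ, (∃ x y, f x ≠ f y) ∧
    r = M.dir (fun x => Real.exp (f x)) f / M.ent (fun x => Real.exp (f x))}

/-- The heat kernel `H_t = e^{-t(I-P)}` (matrix exponential). -/
noncomputable def H (t : ℝ) : Matrix Ω Ω ℝ :=
  NormedSpace.exp (-(t • ((1 : Matrix Ω Ω ℝ) - M.P)))

/-- Relative entropy `D(μ‖π)`. -/
noncomputable def KL (μ : Ω → ℝ) : ℝ := ∑ x, μ x * Real.log (μ x / M.π x)

/-- Entropy mixing time `max_x inf {t ≥ 0 : D(H_t(x,·)‖π) ≤ 1/2}`. -/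
noncomputable def tauEnt : ℝ :=
  ⨆ x : Ω, sInf {t : ℝ | 0 ≤ t ∧ M.KL (fun y => M.H t x y) ≤ 1 / 2}

/-- The measure of a set. -/
noncomputable def meas (A : Finset Ω) : ℝ := ∑ x ∈ A, M.π x

/-- `A` is connected: from every point of `A` every point of `A` is reached by a path of
positive probability inside `A`. -/
def Connected (A : Finset Ω) : Prop :=
  ∀ a ∈ A, ∀ b ∈ A, Relation.ReflTransGen (fun u v => v ∈ A ∧ 0 < M.P u v) a b

/-- The probability that the discrete chain with matrix `P` started at `x` is in `A` at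
all the times `0, 1, …, n`. -/
noncomputable def stay (A : Finset Ω) : ℕ → Ω → ℝ
  | 0 => fun x => if x ∈ A then 1 else 0
  | n + 1 => fun x => if x ∈ A then ∑ y, M.P x y * stay A n y else 0

/-- The hitting time tail `Pr_x[T_{A^c} > t]` of the continuous-time chain, which is the
discrete chain run along a rate-one Poisson process: the average of `stay A n x` over a
Poisson variable `n` of mean `t`. -/
noncomputable def tail (A : Finset Ω) (t : ℝ) (x : Ω) : ℝ :=
  Real.exp (-t) * ∑' n : ℕ, t ^ n / (n.factorial : ℝ) * M.stay A n x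

/-- The entropy hitting-time parameter from `x`. -/
noncomputable def rhoEntAt (Cent : ℝ) (x : Ω) : ℝ :=
  sInf {t : ℝ | 0 ≤ t ∧ ∀ A : Finset Ω, A.Nonempty → M.Connected A → M.meas A ≤ 1 / 2 →
    M.tail A t x ≤ min (Cent / |Real.log (M.meas A)|) (99 / 100)}

/-- The entropy hitting-time parameter `ρ_ent = max_x ρ_{ent,x}`. -/
noncomputable def rhoEnt (Cent : ℝ) : ℝ := ⨆ x : Ω, M.rhoEntAt Cent x

end RevChain

end Pool.Agent.X127.MLS
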