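import Pool.Agent.X127.MLS.Main

set_option autoImplicit false

open Finset

namespace Pool.Agent.X127.MLS

/-! ### The constant -/

theorem four_pow_exp (i : ℕ) : Real.exp ((i : ℝ) * Real.log 4) = 4 ^ i := by
  rw [mul_comm, Real.exp_mul, Real.exp_log (by norm_num), Real.rpow_natCast]

theorem sum_two_pow (K : ℕ) : ∑ i ∈ range K, (2 : ℝ) ^ i = 2 ^ K - 1 := by
  induction K with
  | zero => simp
  | succ K ih => rw [sum_range_succ, ih, pow_succ]; ring

theorem slow_dir (m : ℕ) (hm : 12 ≤ m) :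
    (slow m hm).toRev.dir (fun x => Real.exp ((x : ℕ) * Real.log 4)) (fun x => (x : ℕ) * Real.log 4)
      ≤ 3 * Real.log 4 / (4 * ((m : ℝ) + 1)) := by
  have h := (slow m hm).dir_eq (fun i => Real.exp ((i : ℝ) * Real.log 4)) (fun i => (i : ℝ) * Real.log 4)
  rw [h]
  have hl : 0 < Real.log 4 := Real.log_pos (by norm_num)
  have h1 : ∑ i ∈ range (m + 1), (slow m hm).pi i * (slow m hm).up i *
      ((Real.exp (((i + 1 : ℕ) : ℝ) * Real.log 4) - Real.exp ((i : ℝ) * Real.log 4)) *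
        (((i + 1 : ℕ) : ℝ) * Real.log 4 - (i : ℝ) * Real.log 4)) =
      ∑ i ∈ range (m + 1), 3 / 2 * wt m * Real.log 4 * 2 ^ i := by
    refine sum_congr rfl (fun i hi => ?_)
    rw [slow_edge m hm i (mem_range.1 hi), four_pow_exp, four_pow_exp, four_pow, four_pow, pow_succ]
    push_cast
    have : (2 : ℝ) ^ i ≠ 0 := by positivity
    field_simp
    ring
  rw [h1, ← mul_sum, sum_two_pow]
  have h2 : 3 / 2 * wt m * Real.log 4 * (2 ^ (m + 1) - 1) ≤ 3 / 2 * wt m * Real.log 4 * 2 ^ (m + 1) := by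
    have := wt_pos m
    apply mul_le_mul_of_nonneg_left (by linarith) (by positivity)
  refine h2.trans (le_of_eq ?_)
  unfold wt
  field_simp
  norm_num

theorem slow_ent (m : ℕ) (hm : 12 ≤ m) :
    ((m : ℝ) + 1) ≤ (slow m hm).toRev.ent (fun x => Real.exp ((x : ℕ) * Real.log 4)) := by
  have hl4 : (1.386 : ℝ) < Real.log 4 := by
    have : Real.log 4 = 2 * Real.log 2 := by
      rw [show (4 : ℝ) = 2 ^ 2 by norm_num, Real.log_pow]; norm_num
    rw [this]; linarith [Real.log_two_gt_d9]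
  unfold RevChain.ent
  simp_rw [four_pow_exp]
  have hA : ((m : ℝ) + 1) * Real.log 4 ≤
      ∑ x : Fin (m + 2), (slow m hm).toRev.π x * ((4 : ℝ) ^ (x : ℕ) * Real.log (4 ^ (x : ℕ))) := by
    have h1 : (slow m hm).toRev.π (Fin.last (m + 1)) *
        ((4 : ℝ) ^ ((Fin.last (m + 1) : Fin (m + 2)) : ℕ) * Real.log (4 ^ ((Fin.last (m + 1) : Fin (m + 2)) : ℕ)))
        = ((m : ℝ) + 1) * Real.log 4 := by
      change piN m (m + 1) * ((4 : ℝ) ^ (m + 1) * Real.log (4 ^ (m + 1))) = _
      unfold piN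
      rw [if_neg (by omega), if_neg (by omega), Real.log_pow]
      push_cast
      field_simp
    rw [← h1]
    refine single_le_sum (f := fun x : Fin (m + 2) => (slow m hm).toRev.π x *
      ((4 : ℝ) ^ (x : ℕ) * Real.log (4 ^ (x : ℕ)))) (fun x _ => ?_) (mem_univ _)
    have h2 := (slow m hm).toRev.pi_pos x
    have h3 : 0 ≤ Real.log ((4 : ℝ) ^ (x : ℕ)) := Real.log_nonneg (one_le_pow₀ (by norm_num))
    positivity
  have hB : ∑ x : Fin (m + 2), (slow m hm).toRev.π x * (4 : ℝ) ^ (x : ℕ) ≤ 3 := by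
    have h1 : ∑ x : Fin (m + 2), (slow m hm).toRev.π x * (4 : ℝ) ^ (x : ℕ) =
        ∑ i ∈ range (m + 2), piN m i * 4 ^ i :=
      Fin.sum_univ_eq_sum_range (fun i : ℕ => piN m i * (4 : ℝ) ^ i) (m + 2)
    rw [h1, sum_range_succ, sum_range_succ']
    have h2 : ∑ i ∈ range m, piN m (i + 1) * (4 : ℝ) ^ (i + 1) =
        ∑ i ∈ range m, 3 * wt m * 2 ^ i := by
      refine sum_congr rfl (fun i hi => ?_)
      have := mem_range.1 hi
      unfold piN
      rw [if_neg (by omega), if_pos (by omega), four_pow, pow_succ]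
      field_simp
    rw [h2, ← mul_sum, sum_two_pow]
    have h3 : piN m 0 * (4 : ℝ) ^ 0 ≤ 1 := by
      unfold piN; rw [if_pos rfl]; simpa using pi0_le m
    have h4 : piN m (m + 1) * (4 : ℝ) ^ (m + 1) = 1 := by
      unfold piN
      rw [if_neg (by omega), if_neg (by omega)]
      field_simp
    have h5 : 3 * wt m * (2 ^ m - 1) ≤ 1 := by
      have h6 : wt m * 2 ^ m ≤ 1 / 4 := by
        unfold wt
        rw [div_mul_eq_mul_div, one_mul, div_le_iff₀ (by positivity), pow_succ]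
        have hm0 : (0 : ℝ) ≤ m := Nat.cast_nonneg m
        have : (0 : ℝ) < 2 ^ m := by positivity
        nlinarith
      have := wt_pos m
      nlinarith
    linarith
  have hC : 1 ≤ ∑ x : Fin (m + 2), (slow m hm).toRev.π x * (4 : ℝ) ^ (x : ℕ) := by
    rw [← (slow m hm).toRev.pi_sum]
    refine sum_le_sum (fun x _ => ?_)
    have h2 := (slow m hm).toRev.pi_pos x
    have h3 : (1 : ℝ) ≤ 4 ^ (x : ℕ) := one_le_pow₀ (by norm_num)
    nlinarith
  set E := ∑ x : Fin (m + 2), (slow m hm).toRev.π x * (4 : ℝ) ^ (x : ℕ) with hE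
  have hD : E * Real.log E ≤ 3 * Real.log 3 := by
    have h1 : Real.log E ≤ Real.log 3 := Real.log_le_log (by linarith) hB
    have h2 : 0 ≤ Real.log E := Real.log_nonneg hC
    have h3 : 0 ≤ Real.log 3 := Real.log_nonneg (by norm_num)
    nlinarith
  have hl3 : Real.log 3 ≤ 1.14 := by
    have h1 : Real.log 3 = 2 * Real.log 2 + Real.log (3 / 4) := by
      rw [Real.log_div (by norm_num) (by norm_num), show (4 : ℝ) = 2 ^ 2 by norm_num, Real.log_pow]
      norm_num
    have h2 : Real.log (3 / 4) ≤ 3 / 4 - 1 := Real.log_le_sub_one_of_pos (by norm_num)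
    rw [h1]
    have := Real.log_two_lt_d9
    linarith
  have hm0 : (12 : ℝ) ≤ m := by exact_mod_cast hm
  nlinarith

theorem slow_cMLS_pos (m : ℕ) (hm : 12 ≤ m) : 0 < (slow m hm).toRev.cMLS := by
  have hq : 0 < wt m / 2 ^ (m + 1) := by have := wt_pos m; positivity
  have hK : (0 : ℝ) < ((m + 1 : ℕ) : ℝ) := by positivity
  refine lt_of_lt_of_le (div_pos hq hK) ?_
  refine le_csInf ?_ ?_
  · refine ⟨_, fun x : Fin (m + 2) => ((x : ℕ) : ℝ), ⟨0, 1, ?_⟩, rfl⟩
    simp
  · rintro r ⟨f, hne, rfl⟩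
    refine BD.ratio_ge (by omega) (slow m hm) hq (fun i hi => ?_) f hne
    rw [slow_edge m hm i hi]
    have h1 : (2 : ℝ) ^ (i + 1) ≤ 2 ^ (m + 1) := pow_le_pow_right₀ (by norm_num) (by omega)
    exact div_le_div_of_nonneg_left (wt_pos m).le (by positivity) h1

theorem slow_cMLS_le (m : ℕ) (hm : 12 ≤ m) :
    (slow m hm).toRev.cMLS ≤ 2 / ((m : ℝ) + 1) ^ 2 := by
  have hl4 : Real.log 4 < 1.39 := by
    have : Real.log 4 = 2 * Real.log 2 := by
      rw [show (4 : ℝ) = 2 ^ 2 by norm_num, Real.log_pow]; norm_num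
    rw [this]; linarith [Real.log_two_lt_d9]
  have hl4p : 0 < Real.log 4 := Real.log_pos (by norm_num)
  have hbdd : BddBelow {r : ℝ | ∃ f : Fin (m + 1 + 1) → ℝ, (∃ x y, f x ≠ f y) ∧
      r = (slow m hm).toRev.dir (fun x => Real.exp (f x)) f /
        (slow m hm).toRev.ent (fun x => Real.exp (f x))} := by
    refine ⟨0, ?_⟩
    rintro r ⟨f, hne, rfl⟩
    have hq : 0 < wt m / 2 ^ (m + 1) := by have := wt_pos m; positivity
    have := BD.ratio_ge (by omega) (slow m hm) hq (fun i hi => by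
      rw [slow_edge m hm i hi]
      have h1 : (2 : ℝ) ^ (i + 1) ≤ 2 ^ (m + 1) := pow_le_pow_right₀ (by norm_num) (by omega)
      exact div_le_div_of_nonneg_left (wt_pos m).le (by positivity) h1) f hne
    exact le_trans (by positivity) this
  have hmem : (slow m hm).toRev.cMLS ≤
      (slow m hm).toRev.dir (fun x => Real.exp ((x : ℕ) * Real.log 4)) (fun x => (x : ℕ) * Real.log 4) /
      (slow m hm).toRev.ent (fun x => Real.exp ((x : ℕ) * Real.log 4)) := by
    refine csInf_le hbdd ⟨fun x => ((x : ℕ) : ℝ) * Real.log 4, ⟨0, 1, ?_⟩, rfl⟩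
    simp
    exact hl4p.ne
  have h1 := slow_dir m hm
  have h2 := slow_ent m hm
  have hm0 : (0 : ℝ) < (m : ℝ) + 1 := by positivity
  refine hmem.trans ?_
  rw [div_le_div_iff₀ (by linarith) (by positivity)]
  calc _ ≤ 3 * Real.log 4 / (4 * ((m : ℝ) + 1)) * ((m : ℝ) + 1) ^ 2 :=
        mul_le_mul_of_nonneg_right h1 (by positivity)
    _ = 3 / 4 * Real.log 4 * ((m : ℝ) + 1) := by field_simp
    _ ≤ 2 * ((m : ℝ) + 1) := by nlinarith
    _ ≤ _ := by linarith

/-! ### Hitting and mixing times -/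

/-- The Lyapunov function. -/
noncomputable def phi (m : ℕ) (i : ℕ) : ℝ :=
  if i = 0 then 0 else 1 + (i : ℝ) / ((m : ℝ) + 1) + 2 ^ i / 2 ^ (m + 1)

noncomputable def lam (m : ℕ) : ℝ := 1 / (12 * ((m : ℝ) + 1))

theorem lam_pos (m : ℕ) : 0 < lam m := by unfold lam; positivity

theorem lam_le (m : ℕ) : lam m ≤ 1 := by
  unfold lam
  rw [div_le_one (by positivity)]
  have : (0 : ℝ) ≤ m := Nat.cast_nonneg m
  linarith

theorem phi_nonneg (m i : ℕ) : 0 ≤ phi m i := by
  unfold phi; split_ifs <;> positivity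

theorem phi_ge (m i : ℕ) (hi : i ≠ 0) : 1 ≤ phi m i := by
  unfold phi
  rw [if_neg hi]
  have : (0 : ℝ) ≤ (i : ℝ) / ((m : ℝ) + 1) := by positivity
  have : (0 : ℝ) ≤ 2 ^ i / 2 ^ (m + 1) := by positivity
  linarith

theorem phi_le (m i : ℕ) (hi : i ≤ m + 1) : phi m i ≤ 3 := by
  unfold phi
  split_ifs
  · norm_num
  · have h1 : (i : ℝ) / ((m : ℝ) + 1) ≤ 1 := by
      rw [div_le_one (by positivity)]; exact_mod_cast hi
    have h2 : (2 : ℝ) ^ i / 2 ^ (m + 1) ≤ 1 := by
      rw [div_le_one (by positivity)]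
      exact pow_le_pow_right₀ (by norm_num) hi
    linarith

theorem phi_le' (m i : ℕ) : phi m i ≤ 1 + (i : ℝ) / ((m : ℝ) + 1) + 2 ^ i / 2 ^ (m + 1) := by
  unfold phi
  split_ifs
  · positivity
  · exact le_rfl

/-- Drift at the states `1, …, m+1`. -/
theorem drift_pos (m : ℕ) (hm : 12 ≤ m) (x : Fin (m + 2)) (hx : (x : ℕ) ≠ 0) :
    ∑ y, (slow m hm).toRev.P x y * phi m y ≤ (1 - lam m) * phi m x := by
  rw [(slow m hm).toRev_P_sum (phi m) x]
  change upN m x * _ + dnN m x * _ + (1 - upN m x - dnN m x) * _ ≤ _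
  have hphi := phi_le m x (by omega)
  have hm0 : (0 : ℝ) < (m : ℝ) + 1 := by positivity
  have hlam : lam m * phi m x ≤ 1 / (4 * ((m : ℝ) + 1)) := by
    have h1 : lam m * phi m x ≤ lam m * 3 := mul_le_mul_of_nonneg_left hphi (lam_pos m).le
    refine h1.trans (le_of_eq ?_)
    unfold lam; field_simp; norm_num
  obtain ⟨i, hi⟩ : ∃ i, (x : ℕ) = i + 1 := ⟨(x : ℕ) - 1, by omega⟩
  rw [hi] at hphi hlam ⊢
  have hprev := phi_le' m i
  rcases Nat.lt_or_ge (i + 1) (m + 1) with h | h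
  · unfold upN dnN
    rw [if_neg (by omega), if_pos h, if_neg (by omega), if_pos h, Nat.add_sub_cancel]
    have e1 : phi m (i + 1 + 1) = 1 + ((i : ℝ) + 2) / ((m : ℝ) + 1) + 2 ^ i * 4 / 2 ^ (m + 1) := by
      unfold phi; rw [if_neg (by omega), pow_succ, pow_succ]; push_cast; ring
    have e2 : phi m (i + 1) = 1 + ((i : ℝ) + 1) / ((m : ℝ) + 1) + 2 ^ i * 2 / 2 ^ (m + 1) := by
      unfold phi; rw [if_neg (by omega), pow_succ]; push_cast; ring
    have e3 : (1 : ℝ) / (4 * ((m : ℝ) + 1)) ≤ 1 / (3 * ((m : ℝ) + 1)) := by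
      apply one_div_le_one_div_of_le (by positivity); linarith
    have e4 : 1 / 3 * phi m (i + 1 + 1) + 2 / 3 * (1 + (i : ℝ) / ((m : ℝ) + 1) + 2 ^ i / 2 ^ (m + 1))
        = phi m (i + 1) - 1 / (3 * ((m : ℝ) + 1)) := by
      rw [e1, e2]; field_simp; ring
    have e5 : (1 - 1 / 3 - 2 / 3 : ℝ) * phi m (i + 1) = 0 := by ring
    rw [e5]
    linarith
  · have him : i = m := by omega
    subst him
    unfold upN dnN
    rw [if_neg (by omega), if_neg (by omega), if_neg (by omega), if_neg (by omega),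
      Nat.add_sub_cancel]
    have e2 : phi i (i + 1) = 3 := by
      unfold phi; rw [if_neg (by omega)]; push_cast; field_simp; norm_num
    rw [e2] at hlam ⊢
    have e3 : 1 / (2 * ((i : ℝ) + 1)) * phi i i ≤
        1 / (2 * ((i : ℝ) + 1)) * (1 + (i : ℝ) / ((i : ℝ) + 1) + 2 ^ i / 2 ^ (i + 1)) :=
      mul_le_mul_of_nonneg_left hprev (by positivity)
    have e4 : 1 / (2 * ((i : ℝ) + 1)) * (1 + (i : ℝ) / ((i : ℝ) + 1) + 2 ^ i / 2 ^ (i + 1)) ≤
        1 / (2 * ((i : ℝ) + 1)) * (5 / 2) := by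
      apply mul_le_mul_of_nonneg_left _ (by positivity)
      have h1 : (i : ℝ) / ((i : ℝ) + 1) ≤ 1 := by
        rw [div_le_one (by positivity)]; linarith
      have h2 : (2 : ℝ) ^ i / 2 ^ (i + 1) = 1 / 2 := by
        rw [pow_succ]; field_simp
      rw [h2]; linarith
    have e5 : 1 / (2 * ((i : ℝ) + 1)) * (5 / 2) = 3 * (1 / (2 * ((i : ℝ) + 1))) -
        1 / (4 * ((i : ℝ) + 1)) := by
      field_simp; norm_num
    linarith

theorem drift_all (m : ℕ) (hm : 12 ≤ m) (x : Fin (m + 2)) :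
    ∑ y, (slow m hm).toRev.P x y * phi m y ≤ (1 - lam m) * phi m x + 2 * wt m := by
  have hw := wt_pos m
  by_cases hx : (x : ℕ) = 0
  · rw [(slow m hm).toRev_P_sum (phi m) x]
    change upN m x * _ + dnN m x * _ + (1 - upN m x - dnN m x) * _ ≤ _
    rw [hx]
    have e1 : phi m 0 = 0 := by unfold phi; simp
    have e2 := phi_le m 1 (by omega)
    have e3 : upN m 0 = wt m / 2 / pi0 m := by unfold upN; simp
    have e4 : upN m 0 ≤ 2 / 3 * wt m := by
      rw [e3, div_le_iff₀ (by linarith [pi0_ge m hm])]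
      have := pi0_ge m hm
      nlinarith
    have e5 : 0 ≤ upN m 0 := (slow m hm).up_nonneg 0
    have e6 : upN m 0 * phi m (0 + 1) ≤ 2 / 3 * wt m * 3 := by
      have := phi_nonneg m 1
      calc upN m 0 * phi m (0 + 1) ≤ upN m 0 * 3 := mul_le_mul_of_nonneg_left e2 e5
        _ ≤ _ := by linarith
    have e7 : phi m (0 - 1) = 0 := by simpa using e1
    rw [e7]
    linarith
  · have := drift_pos m hm x hx
    linarith

theorem pi_ge (m : ℕ) (hm : 12 ≤ m) (x : Fin (m + 2)) :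
    wt m / 2 ^ (m + 1) ≤ (slow m hm).toRev.π x := by
  change _ ≤ piN m x
  have hw := wt_pos m
  have h2 := two_pow_ge m hm
  unfold piN
  split_ifs with h h'
  · have := pi0_ge m hm
    have h3 := wt_le m hm
    have : wt m / 2 ^ (m + 1) ≤ wt m := div_le_self hw.le (by linarith)
    linarith
  · have h1 : (2 : ℝ) ^ (x : ℕ) ≤ 2 ^ (m + 1) := pow_le_pow_right₀ (by norm_num) (by omega)
    calc wt m / 2 ^ (m + 1) ≤ wt m / 2 ^ (x : ℕ) :=
          div_le_div_of_nonneg_left hw.le (by positivity) h1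
      _ ≤ 3 / 2 * wt m / 2 ^ (x : ℕ) := by
          apply div_le_div_of_nonneg_right _ (by positivity); linarith
  · unfold wt
    rw [four_pow, div_div]
    apply one_div_le_one_div_of_le (by positivity)
    have hm0 : (0 : ℝ) ≤ m := Nat.cast_nonneg m
    have : (0 : ℝ) < 2 ^ (m + 1) * 2 ^ (m + 1) := by positivity
    nlinarith

theorem log_pi_ge (m : ℕ) (hm : 12 ≤ m) {p : ℝ} (hp : wt m / 2 ^ (m + 1) ≤ p) :
    -Real.log p ≤ 4 * ((m : ℝ) + 1) := by
  have hw := wt_pos m
  have h1 : Real.log (wt m / 2 ^ (m + 1)) ≤ Real.log p := Real.log_le_log (by positivity) hp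
  have h2 : Real.log (wt m / 2 ^ (m + 1)) =
      -(2 * (((m + 1 : ℕ) : ℝ) * Real.log 2) + Real.log (2 * ((m : ℝ) + 1))) := by
    unfold wt
    rw [Real.log_div (by positivity) (by positivity), Real.log_div (by positivity) (by positivity),
      Real.log_mul (by positivity) (by positivity), Real.log_one, Real.log_pow]
    ring
  have h3 : Real.log (2 * ((m : ℝ) + 1)) ≤ 2 * ((m : ℝ) + 1) - 1 :=
    Real.log_le_sub_one_of_pos (by positivity)
  have h4 := Real.log_two_lt_d9
  have hm0 : (0 : ℝ) ≤ m := Nat.cast_nonneg m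
  push_cast at h2
  nlinarith

/-- The time. -/
noncomputable def t0 (a : ℝ) (m : ℕ) : ℝ := 12 * ((m : ℝ) + 1) * Real.log (a * ((m : ℝ) + 1))

theorem t0_nonneg {a : ℝ} (ha : 1 ≤ a) (m : ℕ) : 0 ≤ t0 a m := by
  unfold t0
  have hm0 : (0 : ℝ) ≤ m := Nat.cast_nonneg m
  have : 0 ≤ Real.log (a * ((m : ℝ) + 1)) := Real.log_nonneg (by nlinarith)
  positivity

theorem exp_t0 {a : ℝ} (ha : 1 ≤ a) (m : ℕ) :
    Real.exp (-(t0 a m * lam m)) = 1 / (a * ((m : ℝ) + 1)) := by
  have : t0 a m * lam m = Real.log (a * ((m : ℝ) + 1)) := by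
    unfold t0 lam; field_simp
  rw [this, Real.exp_neg, Real.exp_log (by positivity), one_div]

theorem zero_not_mem (m : ℕ) (hm : 12 ≤ m) (A : Finset (Fin (m + 2)))
    (hA : (slow m hm).toRev.meas A ≤ 1 / 2) (x : Fin (m + 2)) (hx : x ∈ A) : (x : ℕ) ≠ 0 := by
  intro h0
  have h1 : (slow m hm).toRev.π x ≤ (slow m hm).toRev.meas A :=
    single_le_sum (f := (slow m hm).toRev.π) (fun y _ => ((slow m hm).toRev.pi_pos y).le) hx
  have h2 : (slow m hm).toRev.π x = pi0 m := by
    change piN m x = _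
    unfold piN; rw [if_pos h0]
  have := pi0_ge m hm
  linarith

theorem slow_rho (m : ℕ) (hm : 12 ≤ m) {Cent : ℝ} (hC : 0 < Cent) :
    (slow m hm).toRev.rhoEnt Cent ≤ t0 (100 + 12 / Cent) m := by
  have ha : 1 ≤ 100 + 12 / Cent := by
    have : 0 < 12 / Cent := by positivity
    linarith
  set a := 100 + 12 / Cent with ha_def
  have hm0 : (0 : ℝ) < (m : ℝ) + 1 := by positivity
  refine ciSup_le (fun x => ?_)
  refine csInf_le ⟨0, fun t ht => ht.1⟩ ⟨t0_nonneg ha m, ?_⟩
  intro A hAne _ hA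
  have h1 := (slow m hm).toRev.tail_le A (fun y => phi m y) (lam m) (lam_le m)
    (fun y => phi_nonneg m y) (fun y hy => phi_ge m y (zero_not_mem m hm A hA y hy))
    (fun y hy => drift_pos m hm y (zero_not_mem m hm A hA y hy)) (t0_nonneg ha m) x
  rw [exp_t0 ha m] at h1
  have h2 : (slow m hm).toRev.tail A (t0 a m) x ≤ 3 / (a * ((m : ℝ) + 1)) := by
    refine h1.trans ?_
    rw [div_mul_eq_mul_div, one_mul]
    exact div_le_div_of_nonneg_right (phi_le m x (by omega)) (by positivity)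
  refine h2.trans (le_min ?_ ?_)
  · have hmeas : wt m / 2 ^ (m + 1) ≤ (slow m hm).toRev.meas A := by
      obtain ⟨z, hz⟩ := hAne
      exact (pi_ge m hm z).trans
        (single_le_sum (f := (slow m hm).toRev.π) (fun y _ => ((slow m hm).toRev.pi_pos y).le) hz)
    have hmpos : 0 < (slow m hm).toRev.meas A :=
      lt_of_lt_of_le (by have := wt_pos m; positivity) hmeas
    have hlog := log_pi_ge m hm hmeas
    have hneg : Real.log ((slow m hm).toRev.meas A) < 0 := Real.log_neg hmpos (by linarith)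
    rw [abs_of_neg hneg]
    calc 3 / (a * ((m : ℝ) + 1)) ≤ Cent / (4 * ((m : ℝ) + 1)) := by
          rw [div_le_div_iff₀ (by positivity) (by positivity)]
          have : 12 ≤ Cent * a := by
            rw [ha_def, mul_add, mul_div_cancel₀ _ hC.ne']
            nlinarith
          nlinarith
      _ ≤ _ := div_le_div_of_nonneg_left hC.le (by linarith) hlog
  · rw [div_le_div_iff₀ (by positivity) (by norm_num)]
    have hm1 : (0 : ℝ) ≤ m := Nat.cast_nonneg m
    have : 100 ≤ a := by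
      have : 0 < 12 / Cent := by positivity
      linarith
    nlinarith

theorem pow_bound (m : ℕ) (hm : 12 ≤ m) : 480 * ((m : ℝ) + 1) ≤ 2 ^ (m + 1) := by
  induction m, hm using Nat.le_induction with
  | base => norm_num
  | succ m hm ih =>
    rw [pow_succ]
    push_cast
    have hm0 : (0 : ℝ) ≤ m := Nat.cast_nonneg m
    linarith

theorem slow_tau (m : ℕ) (hm : 12 ≤ m) {a : ℝ} (ha : 100 ≤ a) :
    (slow m hm).toRev.tauEnt ≤ t0 a m := by
  have ha1 : 1 ≤ a := by linarith
  have hm0 : (0 : ℝ) < (m : ℝ) + 1 := by positivity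
  refine ciSup_le (fun x => ?_)
  refine csInf_le ⟨0, fun t ht => ht.1⟩ ⟨t0_nonneg ha1 m, ?_⟩
  set M := (slow m hm).toRev with hM
  set μ : Fin (m + 2) → ℝ := fun y => M.H (t0 a m) x y with hμ
  have hμ0 : ∀ y, 0 ≤ μ y := fun y => M.H_nonneg (t0_nonneg ha1 m) x y
  have hμ1 : ∀ y, μ y ≤ 1 := fun y => M.H_le_one (t0_nonneg ha1 m) x y
  have hμs : ∑ y, μ y = 1 := M.H_row_sum (t0_nonneg ha1 m) x
  have hdr := M.drift_H (fun y => phi m y) (lam m) (2 * wt m) (lam_pos m) (lam_le m)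
    (by have := wt_pos m; positivity) (drift_all m hm) (t0_nonneg ha1 m) x
  rw [exp_t0 ha1 m] at hdr
  have h1 : ∑ y, μ y * phi m y ≤ 3 / (a * ((m : ℝ) + 1)) + 12 / 2 ^ (m + 1) := by
    refine hdr.trans (add_le_add ?_ (le_of_eq ?_))
    · rw [div_mul_eq_mul_div, one_mul]
      exact div_le_div_of_nonneg_right (phi_le m x (by omega)) (by positivity)
    · unfold wt lam
      field_simp
  have hterm : ∀ y, μ y * Real.log (μ y / M.π y) ≤
      (1 / 9) * μ y + 4 * ((m : ℝ) + 1) * (μ y * phi m y) := by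
    intro y
    rcases (hμ0 y).eq_or_lt with h0 | h0
    · rw [← h0]; simp
    · have hπ := M.pi_pos y
      rw [Real.log_div h0.ne' hπ.ne']
      have hl : Real.log (μ y) ≤ 0 := Real.log_nonpos (hμ0 y) (hμ1 y)
      have hbound : -Real.log (M.π y) ≤ 1 / 9 + 4 * ((m : ℝ) + 1) * phi m y := by
        by_cases hy : (y : ℕ) = 0
        · have h2 : M.π y = pi0 m := by
            change piN m y = _
            unfold piN; rw [if_pos hy]
          have h3 := pi0_ge m hm
          have h4 : Real.log (9 / 10) ≤ Real.log (pi0 m) := Real.log_le_log (by norm_num) h3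
          have h5 : 1 - (9 / 10 : ℝ)⁻¹ ≤ Real.log (9 / 10) := Real.one_sub_inv_le_log_of_pos (by norm_num)
          have h6 : 0 ≤ 4 * ((m : ℝ) + 1) * phi m y := by
            have := phi_nonneg m y; positivity
          rw [h2]
          norm_num at h5
          linarith
        · have h3 := log_pi_ge m hm (pi_ge m hm y)
          have h4 := phi_ge m y hy
          have h5 : 4 * ((m : ℝ) + 1) ≤ 4 * ((m : ℝ) + 1) * phi m y := by nlinarith
          linarith
      have h7 : μ y * (Real.log (μ y) - Real.log (M.π y)) ≤ μ y * (1 / 9 + 4 * ((m : ℝ) + 1) * phi m y) :=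
        mul_le_mul_of_nonneg_left (by linarith) h0.le
      linarith
  have hsum : M.KL μ ≤ 1 / 9 + 4 * ((m : ℝ) + 1) * ∑ y, μ y * phi m y := by
    unfold RevChain.KL
    refine (sum_le_sum (fun y _ => hterm y)).trans (le_of_eq ?_)
    rw [sum_add_distrib, ← mul_sum, ← mul_sum, hμs, mul_one]
  have h2 : 4 * ((m : ℝ) + 1) * ∑ y, μ y * phi m y ≤
      4 * ((m : ℝ) + 1) * (3 / (a * ((m : ℝ) + 1)) + 12 / 2 ^ (m + 1)) :=
    mul_le_mul_of_nonneg_left h1 (by positivity)
  have h3 : 4 * ((m : ℝ) + 1) * (3 / (a * ((m : ℝ) + 1)) + 12 / 2 ^ (m + 1)) =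
      12 / a + 48 * ((m : ℝ) + 1) / 2 ^ (m + 1) := by
    field_simp
    ring
  have h4 : 12 / a ≤ 12 / 100 := div_le_div_of_nonneg_left (by norm_num) (by norm_num) ha
  have h5 : 48 * ((m : ℝ) + 1) / 2 ^ (m + 1) ≤ 1 / 10 := by
    rw [div_le_div_iff₀ (by positivity) (by norm_num)]
    have := pow_bound m hm
    linarith
  linarith

/-- For every constant `C` (and every value of the constant `Cent` in the definition of
`ρ_ent`) there is a chain whose inverse modified log-Sobolev constant exceeds both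
`C ρ_ent` and `C τ_ent`. -/
theorem main (Cent : ℝ) (hC : 0 < Cent) (C : ℝ) :
    ∃ (n : ℕ) (M : RevChain (Fin n)), 0 < M.cMLS ∧
      C * M.rhoEnt Cent < 1 / M.cMLS ∧ C * M.tauEnt < 1 / M.cMLS := by
  set a := 100 + 12 / Cent with ha
  have ha100 : 100 ≤ a := by
    have : 0 < 12 / Cent := by positivity
    linarith
  have ha1 : 1 ≤ a := by linarith
  have htend : Filter.Tendsto (fun m : ℕ => Real.log (a * ((m : ℝ) + 1)) / (a * ((m : ℝ) + 1)))
      Filter.atTop (nhds 0) := by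
    have h1 : Filter.Tendsto (fun x : ℝ => Real.log x / x) Filter.atTop (nhds 0) := by
      have := Real.isLittleO_log_id_atTop
      simpa using this.tendsto_div_nhds_zero
    refine h1.comp ?_
    apply Filter.Tendsto.const_mul_atTop (by linarith)
    exact Filter.tendsto_atTop_add_const_right _ _ tendsto_natCast_atTop_atTop
  have hev := htend.eventually (gt_mem_nhds (show (0 : ℝ) < 1 / (24 * (|C| + 1) * a) by positivity))
  obtain ⟨m, hm, hm12⟩ := (hev.and (Filter.eventually_ge_atTop 12)).exists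
  have hm0 : (0 : ℝ) < (m : ℝ) + 1 := by positivity
  refine ⟨m + 2, (slow m hm12).toRev, slow_cMLS_pos m hm12, ?_, ?_⟩
  all_goals
    have hpos := slow_cMLS_pos m hm12
    have hle := slow_cMLS_le m hm12
    have hkey : |C| * t0 a m < 1 / (slow m hm12).toRev.cMLS := by
      have h1 : ((m : ℝ) + 1) ^ 2 / 2 ≤ 1 / (slow m hm12).toRev.cMLS := by
        rw [div_le_div_iff₀ (by norm_num) hpos]
        rw [le_div_iff₀ (by positivity)] at hle
        linarith
      refine lt_of_lt_of_le ?_ h1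
      rw [div_lt_div_iff₀ (by positivity) (by positivity)] at hm
      unfold t0
      have hlog : 0 ≤ Real.log (a * ((m : ℝ) + 1)) := Real.log_nonneg (by nlinarith)
      have h2 : Real.log (a * ((m : ℝ) + 1)) * (24 * (|C| + 1)) < (m : ℝ) + 1 := by
        have h3 : Real.log (a * ((m : ℝ) + 1)) * (24 * (|C| + 1)) * a < ((m : ℝ) + 1) * a := by
          linarith
        exact lt_of_mul_lt_mul_right h3 (by linarith)
      have h4 : |C| * (12 * ((m : ℝ) + 1) * Real.log (a * ((m : ℝ) + 1))) ≤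
          ((m : ℝ) + 1) / 2 * (Real.log (a * ((m : ℝ) + 1)) * (24 * (|C| + 1))) := by
        have h5 : 0 ≤ ((m : ℝ) + 1) * Real.log (a * ((m : ℝ) + 1)) := by positivity
        nlinarith
      have h6 : ((m : ℝ) + 1) / 2 * (Real.log (a * ((m : ℝ) + 1)) * (24 * (|C| + 1))) <
          ((m : ℝ) + 1) / 2 * ((m : ℝ) + 1) := mul_lt_mul_of_pos_left h2 (by positivity)
      calc _ ≤ _ := h4
        _ < _ := h6
        _ = _ := by ring
  · have hr := slow_rho m hm12 hC
    have hr0 : 0 ≤ (slow m hm12).toRev.rhoEnt Cent := by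
      refine Real.iSup_nonneg (fun x => Real.sInf_nonneg (fun t ht => ht.1))
    have h7 : C * (slow m hm12).toRev.rhoEnt Cent ≤ |C| * t0 a m := by
      calc C * (slow m hm12).toRev.rhoEnt Cent ≤ |C| * (slow m hm12).toRev.rhoEnt Cent :=
            mul_le_mul_of_nonneg_right (le_abs_self C) hr0
        _ ≤ |C| * t0 a m := mul_le_mul_of_nonneg_left hr (abs_nonneg C)
    exact lt_of_le_of_lt h7 hkey
  · have hr := slow_tau m hm12 ha100
    have hr0 : 0 ≤ (slow m hm12).toRev.tauEnt := by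
      refine Real.iSup_nonneg (fun x => Real.sInf_nonneg (fun t ht => ht.1))
    have h7 : C * (slow m hm12).toRev.tauEnt ≤ |C| * t0 a m := by
      calc C * (slow m hm12).toRev.tauEnt ≤ |C| * (slow m hm12).toRev.tauEnt :=
            mul_le_mul_of_nonneg_right (le_abs_self C) hr0
        _ ≤ |C| * t0 a m := mul_le_mul_of_nonneg_left hr (abs_nonneg C)
    exact lt_of_le_of_lt h7 hkey

end Pool.Agent.X127.MLS
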