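import Pool.Agent.X127.MLS.Chain

set_option autoImplicit false

open Finset

namespace Pool.Agent.X127.MLS

namespace RevChain

variable {Ω : Type} [Fintype Ω] [DecidableEq Ω] (M : RevChain Ω)

theorem mul_log_ge {a u : ℝ} (ha : 0 < a) (hu : 0 < u) : u * Real.log a + u - a ≤ u * Real.log u := by
  have h := Real.log_le_sub_one_of_pos (div_pos ha hu)
  rw [Real.log_div ha.ne' hu.ne'] at h
  have h2 := mul_le_mul_of_nonneg_left h hu.le
  have h3 : u * (a / u - 1) = a - u := by field_simp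
  rw [h3] at h2
  linarith

theorem mul_log_gt {a u : ℝ} (ha : 0 < a) (hu : 0 < u) (hne : u ≠ a) :
    u * Real.log a + u - a < u * Real.log u := by
  have h1 : a / u ≠ 1 := by
    intro h
    rw [div_eq_one_iff_eq hu.ne'] at h
    exact hne h.symm
  have h := Real.log_lt_sub_one_of_pos (div_pos ha hu) h1
  rw [Real.log_div ha.ne' hu.ne'] at h
  have h2 := mul_lt_mul_of_pos_left h hu
  have h3 : u * (a / u - 1) = a - u := by field_simp
  rw [h3] at h2
  linarith

theorem mean_pos {F : Ω → ℝ} (hF : ∀ x, 0 < F x) (x₀ : Ω) : 0 < ∑ x, M.π x * F x :=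
  sum_pos (fun x _ => mul_pos (M.pi_pos x) (hF x)) ⟨x₀, mem_univ _⟩

theorem ent_pos {F : Ω → ℝ} (hF : ∀ x, 0 < F x) (hne : ∃ x y, F x ≠ F y) : 0 < M.ent F := by
  obtain ⟨x₀, y₀, hxy⟩ := hne
  set m := ∑ x, M.π x * F x with hm
  have hmpos : 0 < m := M.mean_pos hF x₀
  have h : ∃ z, F z ≠ m := by
    by_contra hcon
    push Not at hcon
    exact hxy ((hcon x₀).trans (hcon y₀).symm)
  obtain ⟨z, hz⟩ := h
  have hlt : ∑ x, M.π x * (F x * Real.log m + F x - m) < ∑ x, M.π x * (F x * Real.log (F x)) := by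
    refine sum_lt_sum (fun x _ => ?_) ⟨z, mem_univ _, ?_⟩
    · exact mul_le_mul_of_nonneg_left (mul_log_ge hmpos (hF x)) (M.pi_pos x).le
    · exact mul_lt_mul_of_pos_left (mul_log_gt hmpos (hF z) hz) (M.pi_pos z)
  have heq : ∑ x, M.π x * (F x * Real.log m + F x - m) = m * Real.log m := by
    have : ∀ x, M.π x * (F x * Real.log m + F x - m) =
        M.π x * F x * Real.log m + M.π x * F x - M.π x * m := fun x => by ring
    simp_rw [this]
    rw [sum_sub_distrib, sum_add_distrib, ← sum_mul, ← sum_mul, M.pi_sum, ← hm]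
    ring
  unfold ent
  rw [← hm]
  linarith

/-- `Ent(F) ≤ E(F-a)²/a`. -/
theorem ent_le {F : Ω → ℝ} (hF : ∀ x, 0 < F x) {a : ℝ} (ha : 0 < a) (x₀ : Ω) :
    M.ent F ≤ (∑ x, M.π x * (F x - a) ^ 2) / a := by
  set m := ∑ x, M.π x * F x with hm
  have hmpos : 0 < m := M.mean_pos hF x₀
  have h1 := mul_log_ge ha hmpos
  have h2 : ∑ x, M.π x * (F x * Real.log (F x)) ≤
      ∑ x, M.π x * (F x * Real.log a + F x * (F x / a - 1)) := by
    refine sum_le_sum (fun x _ => mul_le_mul_of_nonneg_left ?_ (M.pi_pos x).le)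
    have h := Real.log_le_sub_one_of_pos (div_pos (hF x) ha)
    rw [Real.log_div (hF x).ne' ha.ne'] at h
    have := mul_le_mul_of_nonneg_left h (hF x).le
    linarith
  have h3 : ∑ x, M.π x * (F x * Real.log a + F x * (F x / a - 1)) =
      m * Real.log a + (∑ x, M.π x * (F x - a) ^ 2) / a + m - a := by
    have : ∀ x, M.π x * (F x * Real.log a + F x * (F x / a - 1)) =
        M.π x * F x * Real.log a + M.π x * (F x - a) ^ 2 / a + M.π x * F x - M.π x * a := by
      intro x
      field_simp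
      ring
    simp_rw [this]
    rw [sum_sub_distrib, sum_add_distrib, sum_add_distrib, ← sum_mul, ← sum_mul, ← sum_div,
      M.pi_sum, ← hm]
    ring
  unfold ent
  rw [← hm]
  linarith

end RevChain

theorem exp_sq_le {a b L : ℝ} (ha : Real.exp a ≤ L) (hb : Real.exp b ≤ L) :
    (Real.exp a - Real.exp b) ^ 2 ≤ L * ((Real.exp a - Real.exp b) * (a - b)) := by
  wlog h : b ≤ a generalizing a b with H
  · have := H hb ha (le_of_lt (not_le.1 h))
    nlinarith
  · have h1 : Real.exp a - Real.exp b ≤ L * (a - b) := by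
      have h2 : Real.exp b = Real.exp a * Real.exp (b - a) := by rw [← Real.exp_add]; ring_nf
      have h3 := Real.add_one_le_exp (b - a)
      have h4 : Real.exp a - Real.exp b ≤ Real.exp a * (a - b) := by
        rw [h2]
        have := Real.exp_pos a
        nlinarith
      exact h4.trans (mul_le_mul_of_nonneg_right ha (by linarith))
    have h5 : 0 ≤ Real.exp a - Real.exp b := by
      have := Real.exp_le_exp.2 h; linarith
    nlinarith

theorem sq_diff_le (K : ℕ) (g : ℕ → ℝ) (i j : ℕ) (hi : i ≤ K) (hj : j ≤ K) :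
    (g i - g j) ^ 2 ≤ K * ∑ k ∈ range K, (g (k + 1) - g k) ^ 2 := by
  wlog h : i ≤ j generalizing i j with H
  · have := H j i hj hi (by omega)
    nlinarith
  · have h1 : g j - g i = ∑ k ∈ Ico i j, (g (k + 1) - g k) := by
      rw [Finset.sum_Ico_eq_sub _ h, Finset.sum_range_sub, Finset.sum_range_sub]; ring
    have h2 : (g i - g j) ^ 2 = (∑ k ∈ Ico i j, (g (k + 1) - g k)) ^ 2 := by rw [← h1]; ring
    rw [h2]
    calc (∑ k ∈ Ico i j, (g (k + 1) - g k)) ^ 2
        ≤ (#(Ico i j) : ℝ) * ∑ k ∈ Ico i j, (g (k + 1) - g k) ^ 2 := sq_sum_le_card_mul_sum_sq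
      _ ≤ K * ∑ k ∈ range K, (g (k + 1) - g k) ^ 2 := by
          have hc : (#(Ico i j) : ℝ) ≤ K := by
            rw [Nat.card_Ico]; exact_mod_cast (by omega : j - i ≤ K)
          have hs : ∑ k ∈ Ico i j, (g (k + 1) - g k) ^ 2 ≤
              ∑ k ∈ range K, (g (k + 1) - g k) ^ 2 := by
            refine sum_le_sum_of_subset_of_nonneg ?_ (fun _ _ _ => sq_nonneg _)
            intro k hk
            rw [mem_Ico] at hk
            rw [mem_range]; omega
          have h0 : 0 ≤ ∑ k ∈ Ico i j, (g (k + 1) - g k) ^ 2 := sum_nonneg (fun _ _ => sq_nonneg _)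
          have hK : (0 : ℝ) ≤ K := Nat.cast_nonneg K
          exact mul_le_mul hc hs h0 hK

/-- Lower bound of the modified log-Sobolev ratio of a birth-and-death chain. -/
theorem BD.ratio_ge {K : ℕ} (hK : 0 < K) (B : BD K) {q : ℝ} (hq : 0 < q)
    (hedge : ∀ i < K, q ≤ B.pi i * B.up i) (f : Fin (K + 1) → ℝ) (hne : ∃ x y, f x ≠ f y) :
    q / K ≤ B.toRev.dir (fun x => Real.exp (f x)) f / B.toRev.ent (fun x => Real.exp (f x)) := by
  have hKR : (0 : ℝ) < K := Nat.cast_pos.2 hK
  have hentpos : 0 < B.toRev.ent (fun x => Real.exp (f x)) := by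
    refine B.toRev.ent_pos (fun x => Real.exp_pos _) ?_
    obtain ⟨x, y, hxy⟩ := hne
    exact ⟨x, y, fun h => hxy (Real.exp_injective h)⟩
  rw [le_div_iff₀ hentpos]
  obtain ⟨z, hz⟩ := Finite.exists_max f
  set g : ℕ → ℝ := fun i => if h : i < K + 1 then f ⟨i, h⟩ else 0 with hg
  have hgf : ∀ x : Fin (K + 1), g x = f x := by
    intro x
    change (if h : (x : ℕ) < K + 1 then f ⟨x, h⟩ else 0) = f x
    rw [dif_pos x.2]
  have hf : f = fun x : Fin (K + 1) => g x := by funext x; rw [hgf]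
  have hgz : ∀ i, i < K + 1 → g i ≤ f z := by
    intro i hi; rw [hg]; simp only [dif_pos hi]; exact hz _
  set L := Real.exp (f z) with hL
  have hLpos : 0 < L := Real.exp_pos _
  have h1 := B.toRev.ent_le (F := fun x => Real.exp (f x)) (fun x => Real.exp_pos _) hLpos z
  set S := ∑ k ∈ range K, (Real.exp (g (k + 1)) - Real.exp (g k)) ^ 2 with hS
  have h2 : ∑ x, B.toRev.π x * (Real.exp (f x) - L) ^ 2 ≤ K * S := by
    calc ∑ x, B.toRev.π x * (Real.exp (f x) - L) ^ 2 ≤ ∑ x, B.toRev.π x * (K * S) := by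
          refine sum_le_sum (fun x _ => mul_le_mul_of_nonneg_left ?_ (B.toRev.pi_pos x).le)
          rw [hL, ← hgf, ← hgf]
          exact sq_diff_le K (fun i => Real.exp (g i)) x z (by omega) (by omega)
      _ = K * S := by rw [← sum_mul, B.toRev.pi_sum, one_mul]
  have h3 : q * S ≤ L * B.toRev.dir (fun x => Real.exp (f x)) f := by
    have h4 : B.toRev.dir (fun x => Real.exp (f x)) f =
        ∑ i ∈ range K, B.pi i * B.up i *
          ((Real.exp (g (i + 1)) - Real.exp (g i)) * (g (i + 1) - g i)) := by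
      have h5 := B.dir_eq (fun i => Real.exp (g i)) g
      rw [← h5]
      congr 1
      funext x
      rw [hgf]
    rw [h4, hS, mul_sum, mul_sum]
    refine sum_le_sum (fun i hi => ?_)
    have hiK := mem_range.1 hi
    have h6 := exp_sq_le (a := g (i + 1)) (b := g i) (L := L)
      (Real.exp_le_exp.2 (hgz (i + 1) (by omega))) (Real.exp_le_exp.2 (hgz i (by omega)))
    have h7 : 0 ≤ (Real.exp (g (i + 1)) - Real.exp (g i)) ^ 2 := sq_nonneg _
    calc q * (Real.exp (g (i + 1)) - Real.exp (g i)) ^ 2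
        ≤ (B.pi i * B.up i) * (Real.exp (g (i + 1)) - Real.exp (g i)) ^ 2 :=
          mul_le_mul_of_nonneg_right (hedge i hiK) h7
      _ ≤ (B.pi i * B.up i) * (L * ((Real.exp (g (i + 1)) - Real.exp (g i)) *
            (g (i + 1) - g i))) :=
          mul_le_mul_of_nonneg_left h6 (by linarith [hedge i hiK])
      _ = L * (B.pi i * B.up i * ((Real.exp (g (i + 1)) - Real.exp (g i)) *
            (g (i + 1) - g i))) := by ring
  have h8 : B.toRev.ent (fun x => Real.exp (f x)) ≤ K * S / L :=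
    h1.trans (div_le_div_of_nonneg_right h2 hLpos.le)
  calc q / K * B.toRev.ent (fun x => Real.exp (f x)) ≤ q / K * (K * S / L) :=
        mul_le_mul_of_nonneg_left h8 (by positivity)
    _ = q * S / L := by field_simp
    _ ≤ B.toRev.dir (fun x => Real.exp (f x)) f := by
        rw [div_le_iff₀ hLpos]; linarith

end Pool.Agent.X127.MLS
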