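import Pool.Agent.X127.MLS.Defs

set_option autoImplicit false

open Finset

namespace Pool.Agent.X127.MLS

/-- Poisson average. -/
noncomputable def pois (t : ℝ) (a : ℕ → ℝ) : ℝ :=
  Real.exp (-t) * ∑' n : ℕ, t ^ n / (n.factorial : ℝ) * a n

theorem summable_pois_pow (t r : ℝ) :
    Summable (fun n : ℕ => t ^ n / (n.factorial : ℝ) * r ^ n) := by
  have h := Real.summable_pow_div_factorial (t * r)
  refine h.congr (fun n => ?_)
  rw [mul_pow]; ring

theorem summable_pois {t C : ℝ} (ht : 0 ≤ t) {a : ℕ → ℝ} (ha : ∀ n, |a n| ≤ C) :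
    Summable (fun n : ℕ => t ^ n / (n.factorial : ℝ) * a n) := by
  refine Summable.of_norm_bounded (g := fun n : ℕ => t ^ n / (n.factorial : ℝ) * C) ?_ ?_
  · exact (Real.summable_pow_div_factorial t).mul_right C
  · intro n
    rw [Real.norm_eq_abs, abs_mul, abs_of_nonneg (by positivity : 0 ≤ t ^ n / (n.factorial : ℝ))]
    exact mul_le_mul_of_nonneg_left (ha n) (by positivity)

theorem pois_pow (t r : ℝ) : pois t (fun n => r ^ n) = Real.exp (-(t * (1 - r))) := by
  unfold pois
  have : (∑' n : ℕ, t ^ n / (n.factorial : ℝ) * r ^ n) = Real.exp (t * r) := by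
    rw [Real.exp_eq_exp_ℝ, NormedSpace.exp_eq_tsum_div]
    simp only
    congr 1
    ext n
    rw [mul_pow]; ring
  rw [this, ← Real.exp_add]
  congr 1; ring

theorem pois_mono {t : ℝ} (ht : 0 ≤ t) {a b : ℕ → ℝ}
    (ha : Summable (fun n : ℕ => t ^ n / (n.factorial : ℝ) * a n))
    (hb : Summable (fun n : ℕ => t ^ n / (n.factorial : ℝ) * b n))
    (hab : ∀ n, a n ≤ b n) : pois t a ≤ pois t b := by
  unfold pois
  refine mul_le_mul_of_nonneg_left ?_ (Real.exp_nonneg _)
  exact ha.tsum_le_tsum (fun n => mul_le_mul_of_nonneg_left (hab n) (by positivity)) hb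

theorem pois_add {t : ℝ} {a b : ℕ → ℝ}
    (ha : Summable (fun n : ℕ => t ^ n / (n.factorial : ℝ) * a n))
    (hb : Summable (fun n : ℕ => t ^ n / (n.factorial : ℝ) * b n)) :
    pois t (fun n => a n + b n) = pois t a + pois t b := by
  unfold pois
  rw [← mul_add, ← ha.tsum_add hb]
  congr 2
  ext n; ring

theorem pois_mul_left {t : ℝ} (c : ℝ) (a : ℕ → ℝ) :
    pois t (fun n => c * a n) = c * pois t a := by
  unfold pois
  have : (∑' n : ℕ, t ^ n / (n.factorial : ℝ) * (c * a n)) =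
      c * ∑' n : ℕ, t ^ n / (n.factorial : ℝ) * a n := by
    rw [← tsum_mul_left]
    congr 1
    ext n; ring
  rw [this]; ring

theorem pois_const (t c : ℝ) : pois t (fun _ => c) = c := by
  have h := pois_mul_left (t := t) c (fun n => (1 : ℝ) ^ n)
  rw [pois_pow] at h
  simpa using h

theorem pois_finset_sum {ι : Type} (s : Finset ι) {t : ℝ} (a : ι → ℕ → ℝ)
    (ha : ∀ i ∈ s, Summable (fun n : ℕ => t ^ n / (n.factorial : ℝ) * a i n)) :
    pois t (fun n => ∑ i ∈ s, a i n) = ∑ i ∈ s, pois t (a i) := by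
  unfold pois
  rw [← mul_sum, ← Summable.tsum_finsetSum ha]
  congr 2
  ext n; rw [mul_sum]

namespace RevChain

variable {Ω : Type} [Fintype Ω] [DecidableEq Ω] (M : RevChain Ω)

theorem tail_eq (A : Finset Ω) (t : ℝ) (x : Ω) : M.tail A t x = pois t (fun n => M.stay A n x) := rfl

theorem pow_nonneg' (n : ℕ) (x y : Ω) : 0 ≤ (M.P ^ n) x y := by
  induction n generalizing x y with
  | zero => rw [pow_zero, Matrix.one_apply]; split_ifs <;> norm_num
  | succ n ih =>
    rw [pow_succ, Matrix.mul_apply]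
    exact sum_nonneg (fun z _ => mul_nonneg (ih x z) (M.nonneg z y))

theorem pow_row_sum (n : ℕ) (x : Ω) : ∑ y, (M.P ^ n) x y = 1 := by
  induction n generalizing x with
  | zero => simp [Matrix.one_apply]
  | succ n ih =>
    simp_rw [pow_succ, Matrix.mul_apply]
    rw [sum_comm]
    simp_rw [← mul_sum, M.row_sum, mul_one]
    exact ih x

theorem pow_le_one' (n : ℕ) (x y : Ω) : (M.P ^ n) x y ≤ 1 := by
  rw [← M.pow_row_sum n x]
  exact single_le_sum (f := fun y => (M.P ^ n) x y) (fun z _ => M.pow_nonneg' n x z) (mem_univ y)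

set_option backward.isDefEq.respectTransparency false in
open scoped Matrix.Norms.Operator in
theorem exp_entry (A : Matrix Ω Ω ℝ) (x y : Ω) :
    HasSum (fun n : ℕ => ((n.factorial : ℝ))⁻¹ * (A ^ n) x y) ((NormedSpace.exp A) x y) := by
  have h := NormedSpace.exp_series_hasSum_exp' (𝕂 := ℝ) A
  have h2 := (Pi.hasSum.1 h x)
  have h3 := (Pi.hasSum.1 h2 y)
  simpa [Matrix.smul_apply] using h3

theorem H_apply (t : ℝ) (x y : Ω) : M.H t x y = pois t (fun n => (M.P ^ n) x y) := by
  unfold H pois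
  have h1 : -(t • ((1 : Matrix Ω Ω ℝ) - M.P)) = Matrix.diagonal (fun _ => -t) + t • M.P := by
    rw [smul_sub, neg_sub, sub_eq_add_neg, add_comm]
    congr 1
    ext i j
    by_cases hij : i = j
    · subst hij; simp
    · simp [hij]
  rw [h1]
  have hc : Commute (Matrix.diagonal (fun _ : Ω => -t)) (t • M.P) := by
    have : Matrix.diagonal (fun _ : Ω => -t) = (-t) • (1 : Matrix Ω Ω ℝ) := by
      ext i j
      by_cases hij : i = j
      · subst hij; simp
      · simp [hij]
    rw [this]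
    exact (Commute.one_left (t • M.P)).smul_left (-t)
  rw [Matrix.exp_add_of_commute _ _ hc, Matrix.exp_diagonal, Matrix.diagonal_mul]
  have h2 : NormedSpace.exp (fun _ : Ω => -t) x = Real.exp (-t) := by
    rw [Pi.coe_exp, Real.exp_eq_exp_ℝ]
  rw [h2]
  congr 1
  rw [← (exp_entry (t • M.P) x y).tsum_eq]
  congr 1
  ext n
  rw [smul_pow, Matrix.smul_apply, smul_eq_mul]
  ring

theorem summable_pow (t : ℝ) (ht : 0 ≤ t) (x y : Ω) :
    Summable (fun n : ℕ => t ^ n / (n.factorial : ℝ) * (M.P ^ n) x y) :=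
  summable_pois (C := 1) ht (fun n => by
    rw [abs_of_nonneg (M.pow_nonneg' n x y)]; exact M.pow_le_one' n x y)

theorem H_nonneg {t : ℝ} (ht : 0 ≤ t) (x y : Ω) : 0 ≤ M.H t x y := by
  rw [H_apply]
  unfold pois
  exact mul_nonneg (Real.exp_nonneg _)
    (tsum_nonneg (fun n => mul_nonneg (by positivity) (M.pow_nonneg' n x y)))

theorem H_sum_mul {t : ℝ} (ht : 0 ≤ t) (x : Ω) (φ : Ω → ℝ) :
    ∑ y, M.H t x y * φ y = pois t (fun n => ∑ y, (M.P ^ n) x y * φ y) := by
  rw [pois_finset_sum]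
  · refine sum_congr rfl (fun y _ => ?_)
    rw [H_apply, mul_comm, ← pois_mul_left]
    congr 1; ext n; ring
  · intro y _
    have := (M.summable_pow t ht x y).mul_right (φ y)
    refine this.congr (fun n => ?_)
    ring

theorem H_row_sum {t : ℝ} (ht : 0 ≤ t) (x : Ω) : ∑ y, M.H t x y = 1 := by
  have h := M.H_sum_mul ht x (fun _ => 1)
  simp only [mul_one, M.pow_row_sum] at h
  rw [h, pois_const]

theorem H_le_one {t : ℝ} (ht : 0 ≤ t) (x y : Ω) : M.H t x y ≤ 1 := by
  rw [← M.H_row_sum ht x]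
  exact single_le_sum (f := fun y => M.H t x y) (fun z _ => M.H_nonneg ht x z) (mem_univ y)

/-- Iterated drift condition: if `Pφ ≤ (1-l)φ + b` then `P^n φ ≤ (1-l)^n φ + b/l`. -/
theorem drift_pow (φ : Ω → ℝ) (l b : ℝ) (hl : 0 < l) (hl1 : l ≤ 1) (hb : 0 ≤ b)
    (hd : ∀ x, ∑ y, M.P x y * φ y ≤ (1 - l) * φ x + b) (n : ℕ) (x : Ω) :
    ∑ y, (M.P ^ n) x y * φ y ≤ (1 - l) ^ n * φ x + b / l := by
  induction n with
  | zero =>
    simp [Matrix.one_apply]
    positivity
  | succ n ih =>
    have h1 : ∑ y, (M.P ^ (n + 1)) x y * φ y = ∑ z, (M.P ^ n) x z * ∑ y, M.P z y * φ y := by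
      simp_rw [pow_succ, Matrix.mul_apply, sum_mul, mul_sum]
      rw [sum_comm]
      refine sum_congr rfl (fun z _ => sum_congr rfl (fun y _ => ?_))
      ring
    rw [h1]
    calc ∑ z, (M.P ^ n) x z * ∑ y, M.P z y * φ y
        ≤ ∑ z, (M.P ^ n) x z * ((1 - l) * φ z + b) :=
          sum_le_sum (fun z _ => mul_le_mul_of_nonneg_left (hd z) (M.pow_nonneg' n x z))
      _ = (1 - l) * ∑ z, (M.P ^ n) x z * φ z + b := by
          rw [mul_sum]
          have : ∑ z, (M.P ^ n) x z * b = b := by rw [← sum_mul, M.pow_row_sum, one_mul]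
          conv_rhs => rw [← this]
          rw [← sum_add_distrib]
          refine sum_congr rfl (fun z _ => ?_)
          ring
      _ ≤ (1 - l) * ((1 - l) ^ n * φ x + b / l) + b := by
          have : 0 ≤ 1 - l := by linarith
          gcongr
      _ = (1 - l) ^ (n + 1) * φ x + b / l := by
          field_simp
          ring

theorem drift_H (φ : Ω → ℝ) (l b : ℝ) (hl : 0 < l) (hl1 : l ≤ 1) (hb : 0 ≤ b)
    (hd : ∀ x, ∑ y, M.P x y * φ y ≤ (1 - l) * φ x + b) {t : ℝ} (ht : 0 ≤ t) (x : Ω) :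
    ∑ y, M.H t x y * φ y ≤ Real.exp (-(t * l)) * φ x + b / l := by
  rw [M.H_sum_mul ht]
  have hs1 : Summable (fun n : ℕ => t ^ n / (n.factorial : ℝ) * (φ x * (1 - l) ^ n)) := by
    refine ((summable_pois_pow t (1 - l)).mul_left (φ x)).congr (fun n => ?_)
    ring
  have hs2 : Summable (fun n : ℕ => t ^ n / (n.factorial : ℝ) * (b / l)) :=
    (Real.summable_pow_div_factorial t).mul_right _
  have hs3 : Summable (fun n : ℕ => t ^ n / (n.factorial : ℝ) * ∑ y, (M.P ^ n) x y * φ y) := by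
    have : ∀ y ∈ (univ : Finset Ω), Summable
        (fun n : ℕ => t ^ n / (n.factorial : ℝ) * (M.P ^ n) x y * φ y) :=
      fun y _ => (M.summable_pow t ht x y).mul_right (φ y)
    refine (summable_sum this).congr (fun n => ?_)
    rw [mul_sum]
    exact sum_congr rfl (fun y _ => by ring)
  calc pois t (fun n => ∑ y, (M.P ^ n) x y * φ y)
      ≤ pois t (fun n => φ x * (1 - l) ^ n + b / l) := by
        refine pois_mono ht hs3 ?_ (fun n => ?_)
        · refine (hs1.add hs2).congr (fun n => ?_)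
          ring
        · have := M.drift_pow φ l b hl hl1 hb hd n x
          linarith
    _ = Real.exp (-(t * l)) * φ x + b / l := by
        rw [pois_add hs1 hs2, pois_mul_left, pois_pow, pois_const]
        rw [sub_sub_cancel]; ring

/-- Killed drift condition. -/
theorem stay_le (A : Finset Ω) (φ : Ω → ℝ) (l : ℝ) (hl1 : l ≤ 1)
    (hφ0 : ∀ x, 0 ≤ φ x) (hφ : ∀ x ∈ A, 1 ≤ φ x)
    (hd : ∀ x ∈ A, ∑ y, M.P x y * φ y ≤ (1 - l) * φ x) (n : ℕ) (x : Ω) :
    M.stay A n x ≤ (1 - l) ^ n * φ x := by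
  have h1l : 0 ≤ 1 - l := by linarith
  induction n generalizing x with
  | zero =>
    unfold stay
    split_ifs with h
    · simpa using hφ x h
    · simpa using hφ0 x
  | succ n ih =>
    unfold stay
    split_ifs with h
    · calc ∑ y, M.P x y * M.stay A n y ≤ ∑ y, M.P x y * ((1 - l) ^ n * φ y) :=
            sum_le_sum (fun y _ => mul_le_mul_of_nonneg_left (ih y) (M.nonneg x y))
        _ = (1 - l) ^ n * ∑ y, M.P x y * φ y := by
            rw [mul_sum]; exact sum_congr rfl (fun y _ => by ring)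
        _ ≤ (1 - l) ^ n * ((1 - l) * φ x) := mul_le_mul_of_nonneg_left (hd x h) (by positivity)
        _ = (1 - l) ^ (n + 1) * φ x := by ring
    · exact mul_nonneg (by positivity) (hφ0 x)

theorem stay_nonneg (A : Finset Ω) (n : ℕ) (x : Ω) : 0 ≤ M.stay A n x := by
  induction n generalizing x with
  | zero => unfold stay; split_ifs <;> norm_num
  | succ n ih =>
    unfold stay
    split_ifs
    · exact sum_nonneg (fun y _ => mul_nonneg (M.nonneg x y) (ih y))
    · exact le_rfl

theorem stay_le_one (A : Finset Ω) (n : ℕ) (x : Ω) : M.stay A n x ≤ 1 := by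
  induction n generalizing x with
  | zero => unfold stay; split_ifs <;> norm_num
  | succ n ih =>
    unfold stay
    split_ifs
    · calc ∑ y, M.P x y * M.stay A n y ≤ ∑ y, M.P x y * 1 :=
            sum_le_sum (fun y _ => mul_le_mul_of_nonneg_left (ih y) (M.nonneg x y))
        _ = 1 := by simp [M.row_sum]
    · norm_num

theorem tail_le (A : Finset Ω) (φ : Ω → ℝ) (l : ℝ) (hl1 : l ≤ 1)
    (hφ0 : ∀ x, 0 ≤ φ x) (hφ : ∀ x ∈ A, 1 ≤ φ x)
    (hd : ∀ x ∈ A, ∑ y, M.P x y * φ y ≤ (1 - l) * φ x) {t : ℝ} (ht : 0 ≤ t) (x : Ω) :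
    M.tail A t x ≤ Real.exp (-(t * l)) * φ x := by
  rw [tail_eq]
  calc pois t (fun n => M.stay A n x) ≤ pois t (fun n => φ x * (1 - l) ^ n) := by
        refine pois_mono ht (summable_pois (C := 1) ht (fun n => ?_)) ?_ (fun n => ?_)
        · rw [abs_of_nonneg (M.stay_nonneg A n x)]; exact M.stay_le_one A n x
        · refine ((summable_pois_pow t (1 - l)).mul_left (φ x)).congr (fun n => ?_)
          ring
        · have := M.stay_le A φ l hl1 hφ0 hφ hd n x
          linarith
    _ = Real.exp (-(t * l)) * φ x := by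
        rw [pois_mul_left, pois_pow, sub_sub_cancel]; ring

end RevChain

end Pool.Agent.X127.MLS
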